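import Mathlib
import Pool.Agent.H.MP_523de7_an.A

set_option autoImplicit false

open Filter Topology Set

namespace Pool.Agent.Results.MP_523de7_an.Counter

def Sig (β x : ℝ) : Set (ℕ → Bool) :=
  {ε | HasSum (fun i => ((ε i).toNat : ℝ) / β ^ (i + 1)) x}

noncomputable def N (β x : ℝ) (k : ℕ) : ℕ :=
  Set.ncard {p : Fin k → Bool | ∃ ε ∈ Sig β x, ∀ i : Fin k, p i = ε i}

open Pool.Agent.H.MP_523de7_an in
theorem result : ∃ β ∈ Ioo (1 : ℝ) 2, ∃ x ∈ Icc 0 (1 / (β - 1)),
    0 < liminf (fun k : ℕ => Real.logb 2 (N β x k) / k) atTop ∧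
    letI : MetricSpace (ℕ → Bool) := PiNat.metricSpace
    dimH (Sig β x) = 0 := by
  obtain ⟨β, H⟩ := exists_Hy
  have ha := (summ H (cat fa)).hasSum
  set x := ∑' i, ((cat fa i).toNat : ℝ) / β ^ (i + 1)
  refine ⟨β, ⟨by linarith [H.lo], by linarith [H.hi]⟩, x, by simpa using tail H ha 0, ?_, ?_⟩
  · refine lt_of_lt_of_le (by norm_num : (0 : ℝ) < 1 / 32) (le_liminf_of_le ?_ ?_)
    · refine isCoboundedUnder_ge_of_eventually_le _ (x := 1) ?_
      filter_upwards [eventually_gt_atTop 0] with k hk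
      have h1 : N β x k ≤ 2 ^ k := by
        refine (Set.ncard_le_card _).trans ?_
        simp
      have h2 : 0 < N β x k := lt_of_lt_of_le (by positivity) (count_lb H ha k)
      rw [div_le_one (by exact_mod_cast hk), Real.logb_le_iff_le_rpow one_lt_two
        (by exact_mod_cast h2), Real.rpow_natCast]
      exact_mod_cast h1
    · filter_upwards [eventually_ge_atTop 64] with k hk
      have h1 : 2 ^ ((k / 8 - 1) / 2) ≤ N β x k := count_lb H ha k
      have h2 : 0 < N β x k := lt_of_lt_of_le (by positivity) h1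
      have h3 : (((k / 8 - 1) / 2 : ℕ) : ℝ) ≤ Real.logb 2 (N β x k) := by
        rw [Real.le_logb_iff_rpow_le one_lt_two (by exact_mod_cast h2), Real.rpow_natCast]
        exact_mod_cast h1
      have h4 : (k : ℝ) ≤ 32 * (((k / 8 - 1) / 2 : ℕ) : ℝ) := by
        exact_mod_cast (by omega : k ≤ 32 * ((k / 8 - 1) / 2))
      rw [le_div_iff₀ (by exact_mod_cast (by omega : 0 < k))]
      linarith
  · letI : MetricSpace (ℕ → Bool) := PiNat.metricSpace
    refine le_antisymm ((dimH_mono fun b hb => ?_).trans ((dimH_union _ _).trans_le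
      (max_le (dim_part true).le (dim_part false).le))) bot_le
    obtain ⟨s, hs⟩ := structure_thm (alive H ha hb)
    cases s
    · exact Or.inr hs
    · exact Or.inl hs

end Pool.Agent.Results.MP_523de7_an.Counter
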